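import Pool.Agent.R575.DG.Low

/-!
MP_5e3ef6_lc: the problem `DIAG` of finding a diagonal function for an enumerated equivalence
relation with at least two classes lies above choice on the natural numbers and above `DNC_ℕ`, and
strictly below the product of choice on the natural numbers with `DNC_2` (weak König's lemma); it
is not below the product of choice on the natural numbers with `DNC_k` for any `k ≥ 3`, and it is
Weihrauch incomparable with weak König's lemma and with `DNC_k` (as the parallelization of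
all-or-co-unique choice on `k` elements) for every `k ≥ 2`, even topologically.
-/

namespace Pool.Agent.Results.MP_5e3ef6_lc.IncomparableWithWKL

open Pool.Agent.R575.WC Pool.Agent.R575.DG

theorem result :
    (WRed CNat DIAG ∧ WRed ACCN DIAG ∧ WRed DIAG (prod CNat (ACC 2)) ∧
      ¬ WRed (prod CNat (ACC 2)) DIAG ∧ ¬ TRed (prod CNat (ACC 2)) DIAG) ∧
    (∀ k, 3 ≤ k → ¬ WRed DIAG (prod CNat (ACC k)) ∧ ¬ TRed DIAG (prod CNat (ACC k))) ∧
    (¬ WRed WKL DIAG ∧ ¬ TRed WKL DIAG ∧ ¬ WRed DIAG WKL ∧ ¬ TRed DIAG WKL) ∧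
    ∀ k, 2 ≤ k → ¬ WRed (ACC k) DIAG ∧ ¬ TRed (ACC k) DIAG ∧
      ¬ WRed DIAG (ACC k) ∧ ¬ TRed DIAG (ACC k) :=
  ⟨⟨CNat_le, ACCN_le, DIAG_le, not_prod_DIAG le_rfl, not_prod_DIAG le_rfl⟩,
    fun _ hk => ⟨not_DIAG_prod hk, not_DIAG_prod hk⟩,
    ⟨not_WKL, not_WKL, not_DIAG_WKL, not_DIAG_WKL⟩,
    fun k hk => ⟨not_ACC hk, not_ACC hk, not_DIAG_ACC k, not_DIAG_ACC k⟩⟩

end Pool.Agent.Results.MP_5e3ef6_lc.IncomparableWithWKL
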